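import Pool.Agent.H1.LP.Targets

/-!
# MP_c62aed_lc, modules CNT and ONE (repetitions, one sample)
-/

namespace Pool.Agent.H73.LP

open Finset Pool.Agent.H1.LP

theorem cnt : S_CNT := by
  intro s Q _ f hf
  classical
  set G := univ.filter (fun r : Fin (2 * s) => ∃ r', r' < r ∧ f r' = f r) with hG
  set F := univ.filter (fun r : Fin (2 * s) => ¬ ∃ r', r' < r ∧ f r' = f r) with hF
  choose g hg1 hg2 using hf
  have h1 : F.card ≤ G.card := by
    apply Finset.card_le_card_of_injOn g
    · intro r hr
      have hr' : ¬ ∃ r', r' < r ∧ f r' = f r := (mem_filter.1 hr).2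
      have : g r ∈ G := by
        rw [hG, mem_filter]
        refine ⟨mem_univ _, r, ?_, (hg2 r).symm⟩
        rcases lt_trichotomy (g r) r with h | h | h
        · exact absurd ⟨g r, h, hg2 r⟩ hr'
        · exact absurd h (hg1 r)
        · exact h
      exact this
    · intro r hr r2 hr2 h
      have hr' : ¬ ∃ r', r' < r ∧ f r' = f r := (mem_filter.1 hr).2
      have hr2' : ¬ ∃ r', r' < r2 ∧ f r' = f r2 := (mem_filter.1 hr2).2
      have he : f r = f r2 := by rw [← hg2 r, ← hg2 r2, h]
      rcases lt_trichotomy r r2 with h' | h' | h'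
      · exact absurd ⟨r, h', he⟩ hr2'
      · exact h'
      · exact absurd ⟨r2, h', he.symm⟩ hr'
  have h2 : G.card + F.card = 2 * s := by
    have := Finset.card_filter_add_card_filter_not (s := (univ : Finset (Fin (2 * s))))
      (fun r : Fin (2 * s) => ∃ r', r' < r ∧ f r' = f r)
    rw [Finset.card_univ, Fintype.card_fin] at this
    rw [hG, hF]
    exact this
  omega

theorem one_aux {B : ℕ} {Q : Type} [Fintype Q] [DecidableEq Q] (D y : ℝ) (N : ℕ)
    (L0 : Finset (Fin B)) (V : (Fin B → Q) → ℝ) (pr : Fin B → Finset Q)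
    (hD : 0 < D) (hy : 1 ≤ y) (hV : ∀ x, 0 ≤ V x)
    (hL0 : ∀ L' ⊆ L0, ∀ z, (∑ x with Agree L' x z, V x) * D ^ L'.card ≤ ∑ x, V x)
    (hpr : ∀ j, (pr j).card ≤ N) :
    ∀ (L P : Finset (Fin B)), Disjoint P L → P ∪ L ⊆ L0 → ∀ z : Fin B → Q,
      (∑ x with Agree P x z, V x * ∏ j ∈ L, (if x j ∈ pr j then y else 1)) * D ^ P.card ≤
        (∑ x, V x) * (1 + (y - 1) * N / D) ^ L.card := by
  classical
  have hS : 0 ≤ ∑ x, V x := Finset.sum_nonneg (fun x _ => hV x)
  have hq : 0 ≤ 1 + (y - 1) * N / D := by
    have : 0 ≤ (y - 1) * N / D := by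
      apply div_nonneg (mul_nonneg (by linarith) (Nat.cast_nonneg N)) hD.le
    linarith
  intro L
  induction L using Finset.induction_on with
  | empty =>
    intro P _ hP z
    simp only [prod_empty, mul_one, card_empty, pow_zero]
    rw [union_empty] at hP
    exact hL0 P hP z
  | insert a L ha ih =>
    intro P hPL hP z
    have hd1 : Disjoint P L := Finset.disjoint_of_subset_right (subset_insert a L) hPL
    have haP : a ∉ P := fun h => (Finset.disjoint_left.1 hPL h) (mem_insert_self a L)
    have hs1 : P ∪ L ⊆ L0 := (union_subset_union_right (subset_insert a L)).trans hP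
    have hi1 := ih P hd1 hs1 z
    set g : (Fin B → Q) → ℝ := fun x => V x * ∏ j ∈ L, (if x j ∈ pr j then y else 1) with hg
    have hg0 : ∀ x, 0 ≤ g x := fun x => mul_nonneg (hV x) (Finset.prod_nonneg (fun j _ => by
      split_ifs
      · linarith
      · norm_num))
    have hsplit : ∑ x with Agree P x z, V x * ∏ j ∈ insert a L, (if x j ∈ pr j then y else 1) =
        ∑ x with Agree P x z, g x + (y - 1) *
          ∑ x with (Agree P x z ∧ x a ∈ pr a), g x := by
      rw [← Finset.filter_filter, Finset.sum_filter (s := univ.filter fun x => Agree P x z)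
        (p := fun x => x a ∈ pr a), Finset.mul_sum, ← Finset.sum_add_distrib]
      refine Finset.sum_congr rfl (fun x _ => ?_)
      rw [Finset.prod_insert ha, hg]
      simp only
      split_ifs
      · ring
      · ring
    have hfib : ∑ x with (Agree P x z ∧ x a ∈ pr a), g x =
        ∑ c ∈ pr a, ∑ x with Agree (insert a P) x (Function.update z a c), g x := by
      rw [← Finset.sum_fiberwise_of_maps_to (s := univ.filter fun x : Fin B → Q =>
        (Agree P x z ∧ x a ∈ pr a)) (t := pr a) (g := fun x => x a)
        (fun x hx => (mem_filter.1 hx).2.2)]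
      refine Finset.sum_congr rfl (fun c hc => Finset.sum_congr ?_ (fun _ _ => rfl))
      ext x
      simp only [mem_filter, mem_univ, true_and, Agree, Finset.forall_mem_insert,
        Function.update_self]
      constructor
      · rintro ⟨⟨h1, h2⟩, h3⟩
        refine ⟨h3, fun j hj => ?_⟩
        have hja : j ≠ a := fun h => haP (h ▸ hj)
        rw [Function.update_of_ne hja]
        exact h1 j hj
      · rintro ⟨h1, h2⟩
        refine ⟨⟨fun j hj => ?_, h1 ▸ hc⟩, h1⟩
        have hja : j ≠ a := fun h => haP (h ▸ hj)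
        have := h2 j hj
        rwa [Function.update_of_ne hja] at this
    have hd2 : Disjoint (insert a P) L := by
      rw [Finset.disjoint_insert_left]
      exact ⟨ha, hd1⟩
    have hs2 : insert a P ∪ L ⊆ L0 := by
      rw [Finset.insert_union, ← Finset.union_insert]
      exact hP
    have hi2 : ∀ c ∈ pr a, (∑ x with Agree (insert a P) x (Function.update z a c), g x) *
        D ^ P.card ≤ (∑ x, V x) * (1 + (y - 1) * N / D) ^ L.card / D := by
      intro c _
      have := ih (insert a P) hd2 hs2 (Function.update z a c)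
      rw [Finset.card_insert_of_notMem haP, pow_succ, ← mul_assoc] at this
      rw [le_div_iff₀ hD]
      exact this
    have hsum : (∑ x with (Agree P x z ∧ x a ∈ pr a), g x) * D ^ P.card ≤
        N * ((∑ x, V x) * (1 + (y - 1) * N / D) ^ L.card / D) := by
      rw [hfib, Finset.sum_mul]
      refine (Finset.sum_le_sum hi2).trans ?_
      rw [Finset.sum_const, nsmul_eq_mul]
      apply mul_le_mul_of_nonneg_right
      · exact_mod_cast hpr a
      · positivity
    rw [hsplit, add_mul, mul_assoc, Finset.card_insert_of_notMem ha, pow_succ]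
    have h3 := mul_le_mul_of_nonneg_left hsum (by linarith : 0 ≤ y - 1)
    calc _ ≤ (∑ x, V x) * (1 + (y - 1) * N / D) ^ L.card +
          (y - 1) * (N * ((∑ x, V x) * (1 + (y - 1) * N / D) ^ L.card / D)) := add_le_add hi1 h3
      _ = _ := by ring

theorem one : S_ONE := by
  intro B Q _ _ D y N L V pr hD hy hV hL hpr
  rcases isEmpty_or_nonempty (Fin B → Q) with h | h
  · simp
  · obtain ⟨z⟩ := h
    have := one_aux D y N L V pr hD hy hV hL hpr L ∅ (Finset.disjoint_empty_left L)
      (by rw [empty_union]) z
    simpa [Agree] using this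

theorem phase : S_PHASE := by
  intro p B _ Q _ _ I w V al l l' hV hl
  unfold FS
  rw [Finset.mul_sum]
  refine Finset.sum_congr rfl (fun x _ => ?_)
  by_cases hx : V x = 0
  · rw [hx]
    simp
  · have hA := hV x hx
    have h1 : ip (l + l') (val al x) = ip l (val al x) + ip l' (val al x) := by
      unfold ip
      rw [← Finset.sum_add_distrib]
      refine Finset.sum_congr rfl (fun j _ => ?_)
      rw [Pi.add_apply, add_mul]
    have h2 : ip l' (val al x) = ip l' (val al w) := by
      unfold ip
      refine Finset.sum_congr rfl (fun j _ => ?_)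
      by_cases hj : l' j = 0
      · rw [hj, zero_mul, zero_mul]
      · have : j ∈ I := hl (by simp [supp, hj])
        unfold Pool.Agent.H1.LP.val
        rw [hA j this]
    rw [h1, h2, AddChar.map_add_eq_mul]
    ring

end Pool.Agent.H73.LP
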