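import Pool.Agent.H1.LP.Targets

/-!
# MP_c62aed_lc, modules SEQ, PAIR and LOWZ
-/

namespace Pool.Agent.H73.LP

open Finset Pool.Agent.H1.LP

theorem seq_aux (hONE : S_ONE) {B : ℕ} {Q : Type} [Fintype Q] [DecidableEq Q] (D y : ℝ)
    (L : Finset (Fin B)) (V : (Fin B → Q) → ℝ) (hD : 0 < D) (hy : 1 ≤ y) (hV : ∀ x, 0 ≤ V x)
    (hL : ∀ L' ⊆ L, ∀ z, (∑ x with Agree L' x z, V x) * D ^ L'.card ≤ ∑ x, V x) (N : ℕ) :
    ∀ M : ℕ, M ≤ N → ∑ X : Fin M → Fin B → Q, (∏ r, V (X r)) *
        ∏ r, ∏ j ∈ L, (if ∃ r', r' < r ∧ X r' j = X r j then y else 1) ≤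
      ((∑ x, V x) * (1 + (y - 1) * N / D) ^ L.card) ^ M := by
  classical
  intro M
  induction M with
  | zero =>
    intro _
    simp
  | succ M ih =>
    intro hM
    have ihM := ih (by omega)
    have hS : 0 ≤ ∑ x, V x := Finset.sum_nonneg (fun x _ => hV x)
    rw [← (Fin.snocEquiv (fun _ : Fin (M + 1) => Fin B → Q)).sum_comp, Fintype.sum_prod_type,
      Finset.sum_comm, pow_succ]
    have hterm : ∀ X' : Fin M → Fin B → Q,
        (∑ x : Fin B → Q, (∏ r, V ((Fin.snocEquiv (fun _ : Fin (M + 1) => Fin B → Q)) (x, X') r)) *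
          ∏ r, ∏ j ∈ L, (if ∃ r', r' < r ∧
            (Fin.snocEquiv (fun _ : Fin (M + 1) => Fin B → Q)) (x, X') r' j =
            (Fin.snocEquiv (fun _ : Fin (M + 1) => Fin B → Q)) (x, X') r j then y else 1)) ≤
        ((∏ r, V (X' r)) * ∏ r, ∏ j ∈ L, (if ∃ r', r' < r ∧ X' r' j = X' r j then y else 1)) *
          ((∑ x, V x) * (1 + (y - 1) * N / D) ^ L.card) := by
      intro X'
      have e1 : ∀ x : Fin B → Q,
          (∏ r, V ((Fin.snocEquiv (fun _ : Fin (M + 1) => Fin B → Q)) (x, X') r)) *
          ∏ r, ∏ j ∈ L, (if ∃ r', r' < r ∧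
            (Fin.snocEquiv (fun _ : Fin (M + 1) => Fin B → Q)) (x, X') r' j =
            (Fin.snocEquiv (fun _ : Fin (M + 1) => Fin B → Q)) (x, X') r j then y else 1) =
          ((∏ r, V (X' r)) * ∏ r, ∏ j ∈ L, (if ∃ r', r' < r ∧ X' r' j = X' r j then y else 1)) *
          (V x * ∏ j ∈ L, (if x j ∈ univ.image (fun r => X' r j) then y else 1)) := by
        intro x
        rw [Fin.prod_univ_castSucc, Fin.prod_univ_castSucc]
        have a1 : ∀ r : Fin M, (Fin.snocEquiv (fun _ : Fin (M + 1) => Fin B → Q)) (x, X')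
            r.castSucc = X' r := fun r => by
          simp [Fin.snocEquiv]
        have a2 : (Fin.snocEquiv (fun _ : Fin (M + 1) => Fin B → Q)) (x, X') (Fin.last M) = x := by
          simp [Fin.snocEquiv]
        have a3 : ∀ (r : Fin M) (j : Fin B), (∃ r', r' < r.castSucc ∧
            (Fin.snocEquiv (fun _ : Fin (M + 1) => Fin B → Q)) (x, X') r' j =
            (Fin.snocEquiv (fun _ : Fin (M + 1) => Fin B → Q)) (x, X') r.castSucc j) ↔
            ∃ r', r' < r ∧ X' r' j = X' r j := by
          intro r j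
          rw [a1]
          constructor
          · rintro ⟨r', h1, h2⟩
            obtain ⟨r0, rfl⟩ : ∃ r0 : Fin M, r0.castSucc = r' := by
              refine ⟨⟨r'.1, ?_⟩, ?_⟩
              · have : r'.1 < r.1 := h1
                omega
              · ext
                rfl
            rw [a1] at h2
            exact ⟨r0, h1, h2⟩
          · rintro ⟨r', h1, h2⟩
            refine ⟨r'.castSucc, h1, ?_⟩
            rw [a1]
            exact h2
        have a4 : ∀ j : Fin B, (∃ r', r' < Fin.last M ∧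
            (Fin.snocEquiv (fun _ : Fin (M + 1) => Fin B → Q)) (x, X') r' j =
            (Fin.snocEquiv (fun _ : Fin (M + 1) => Fin B → Q)) (x, X') (Fin.last M) j) ↔
            x j ∈ univ.image (fun r => X' r j) := by
          intro j
          rw [a2, mem_image]
          constructor
          · rintro ⟨r', h1, h2⟩
            obtain ⟨r0, rfl⟩ : ∃ r0 : Fin M, r0.castSucc = r' := by
              refine ⟨⟨r'.1, ?_⟩, ?_⟩
              · have : r'.1 < M := h1
                omega
              · ext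
                rfl
            rw [a1] at h2
            exact ⟨r0, mem_univ _, h2⟩
          · rintro ⟨r', _, h2⟩
            refine ⟨r'.castSucc, Fin.castSucc_lt_last r', ?_⟩
            rw [a1]
            exact h2
        simp only [a3, a4]
        simp only [a1, a2]
        ring
      rw [Finset.sum_congr rfl (fun x _ => e1 x), ← Finset.mul_sum]
      apply mul_le_mul_of_nonneg_left
      · have := hONE B Q D y N L V (fun j => univ.image (fun r => X' r j)) hD hy hV hL
          (fun j => by
            refine Finset.card_image_le.trans ?_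
            rw [Finset.card_univ, Fintype.card_fin]
            omega)
        exact this
      · apply mul_nonneg (Finset.prod_nonneg (fun r _ => hV _))
        exact Finset.prod_nonneg (fun r _ => Finset.prod_nonneg (fun j _ => by
          split_ifs
          · linarith
          · norm_num))
    refine (Finset.sum_le_sum (fun X' _ => hterm X')).trans ?_
    rw [← Finset.sum_mul]
    apply mul_le_mul_of_nonneg_right ihM
    apply mul_nonneg hS
    have : 0 ≤ (y - 1) * N / D := div_nonneg (mul_nonneg (by linarith) (Nat.cast_nonneg N)) hD.le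
    positivity

theorem seq (hONE : S_ONE) : S_SEQ := by
  intro B Q _ _ D y L V hD hy hV hL N
  exact seq_aux hONE D y L V hD hy hV hL N N le_rfl

theorem pair (hCNT : S_CNT) (hSEQ : S_SEQ) : S_PAIR := by
  intro B Q _ _ D L V s hs hD hV hL
  have hs' : (0 : ℝ) < 2 * s := by positivity
  have hD0 : 0 < D := lt_of_lt_of_le hs' hD
  set y : ℝ := D / (2 * s) with hy
  have hy1 : 1 ≤ y := by
    rw [hy, le_div_iff₀ hs', one_mul]
    exact hD
  have hseq := hSEQ B Q D y L V hD0 hy1 hV hL (2 * s)
  have hS : 0 ≤ ∑ x, V x := Finset.sum_nonneg (fun x _ => hV x)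
  have hq : 1 + (y - 1) * ((2 * s : ℕ) : ℝ) / D ≤ 2 := by
    have : (y - 1) * ((2 * s : ℕ) : ℝ) / D ≤ 1 := by
      rw [div_le_one hD0]
      push_cast
      have h1 : y * (2 * s) = D := by
        rw [hy]
        field_simp
      nlinarith
    linarith
  have hq0 : 0 ≤ 1 + (y - 1) * ((2 * s : ℕ) : ℝ) / D := by
    have : 0 ≤ (y - 1) * ((2 * s : ℕ) : ℝ) / D :=
      div_nonneg (mul_nonneg (by linarith) (Nat.cast_nonneg _)) hD0.le
    linarith
  calc (∑ X : Fin (2 * s) → Fin B → Q,
        if (∀ j ∈ L, ∀ r, ∃ r', r' ≠ r ∧ X r' j = X r j) then ∏ r, V (X r) else 0) *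
      y ^ (s * L.card)
      ≤ ∑ X : Fin (2 * s) → Fin B → Q, (∏ r, V (X r)) *
        ∏ r, ∏ j ∈ L, (if ∃ r', r' < r ∧ X r' j = X r j then y else 1) := by
        rw [Finset.sum_mul]
        refine Finset.sum_le_sum (fun X _ => ?_)
        have hp0 : 0 ≤ ∏ r, V (X r) := Finset.prod_nonneg (fun r _ => hV _)
        have hw0 : 0 ≤ ∏ r, ∏ j ∈ L, (if ∃ r', r' < r ∧ X r' j = X r j then y else 1) :=
          Finset.prod_nonneg (fun r _ => Finset.prod_nonneg (fun j _ => by
            split_ifs
            · linarith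
            · norm_num))
        split_ifs with h
        · apply mul_le_mul_of_nonneg_left _ hp0
          rw [Finset.prod_comm, mul_comm s, pow_mul', ← Finset.prod_const]
          refine Finset.prod_le_prod (fun j _ => by positivity) (fun j hj => ?_)
          rw [Finset.prod_ite, Finset.prod_const, Finset.prod_const_one, mul_one]
          exact pow_le_pow_right₀ hy1 (hCNT s Q (fun r => X r j) (h j hj))
        · rw [zero_mul]
          exact mul_nonneg hp0 hw0
    _ ≤ ((∑ x, V x) * (1 + (y - 1) * ((2 * s : ℕ) : ℝ) / D) ^ L.card) ^ (2 * s) := hseq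
    _ ≤ ((∑ x, V x) * 2 ^ L.card) ^ (2 * s) := by
        gcongr
    _ = (∑ x, V x) ^ (2 * s) * 4 ^ (s * L.card) := by
        rw [mul_pow, ← pow_mul]
        congr 1
        rw [show (4 : ℝ) = 2 ^ 2 by norm_num, ← pow_mul]
        congr 1
        ring

theorem supp_neg {p B : ℕ} (l : Fin B → ZMod p) : supp (-l) = supp l := by
  unfold supp
  ext j
  simp

theorem supp_add_sub {p B : ℕ} (l l' : Fin B → ZMod p) : supp (l + l') ⊆ supp l ∪ supp l' := by
  intro j hj
  unfold supp at *
  simp only [mem_filter, mem_univ, true_and, mem_union, Pi.add_apply] at *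
  by_contra h
  push Not at h
  rw [h.1, h.2, add_zero] at hj
  exact hj rfl

theorem lowz (hPHASE : S_PHASE) : S_LOWZ := by
  intro p B d _ Q _ _ S s0 I w V al hV hI hviol
  obtain ⟨l0, hl0, hsub, hne⟩ := hviol
  set z := val al w with hz
  -- membership in the low part is invariant under translation
  have key : ∀ l ∈ S.La.filter (fun l => (supp l \ I).card ≤ s0), ∀ m ∈ S.La, supp m ⊆ I →
      l + m ∈ S.La.filter (fun l => (supp l \ I).card ≤ s0) ∧ (supp (l + m)).card ≤ d := by
    intro l hl m hm hmI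
    rw [mem_filter] at hl
    have h1 : supp (l + m) \ I ⊆ supp l \ I := by
      intro j hj
      rw [mem_sdiff] at hj ⊢
      refine ⟨?_, hj.2⟩
      rcases mem_union.1 (supp_add_sub l m hj.1) with h | h
      · exact h
      · exact absurd (hmI h) hj.2
    have h2 : (supp (l + m) \ I).card ≤ s0 := (card_le_card h1).trans hl.2
    have h3 : (supp (l + m)).card ≤ d := by
      have h4 := Finset.card_sdiff_add_card_inter (supp (l + m)) I
      have h5 : (supp (l + m) ∩ I).card ≤ I.card := card_le_card inter_subset_right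
      omega
    rw [mem_filter]
    exact ⟨⟨S.add_mem l hl.1 m hm h3, h2⟩, h3⟩
  have hF : ∑ l ∈ S.La.filter (fun l => (supp l \ I).card ≤ s0),
      ZMod.stdAddChar (- S.ga l) * FS V l al =
      ZMod.stdAddChar (ip l0 z - S.ga l0) * ∑ l ∈ S.La.filter (fun l => (supp l \ I).card ≤ s0),
      ZMod.stdAddChar (- S.ga l) * FS V l al := by
    rw [Finset.mul_sum]
    symm
    refine Finset.sum_bij' (fun l _ => l + l0) (fun l _ => l + (-l0)) ?_ ?_ ?_ ?_ ?_
    · intro l hl
      exact (key l hl l0 hl0 hsub).1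
    · intro l hl
      exact (key l hl (-l0) (S.neg_mem l0 hl0) (by rw [supp_neg]; exact hsub)).1
    · intro l _
      abel
    · intro l _
      abel
    · intro l hl
      have h1 := key l hl l0 hl0 hsub
      have h2 := S.add_ga l (mem_filter.1 hl).1 l0 hl0 h1.2
      rw [h2, hPHASE p B Q I w V al l l0 hV hsub, ← hz]
      rw [show ip l0 z - S.ga l0 = ip l0 z + (- S.ga l0) by ring,
        show -(S.ga l + S.ga l0) = (- S.ga l) + (- S.ga l0) by ring,
        AddChar.map_add_eq_mul, AddChar.map_add_eq_mul]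
      ring
  have hc : ZMod.stdAddChar (ip l0 z - S.ga l0) ≠ (1 : ℂ) := by
    intro h
    have h1 : (ZMod.stdAddChar (ip l0 z - S.ga l0) : ℂ) = ZMod.stdAddChar (0 : ZMod p) := by
      rw [h, AddChar.map_zero_eq_one]
    have h2 := ZMod.injective_stdAddChar h1
    exact hne (sub_eq_zero.1 h2)
  by_contra hne0
  apply hc
  have h3 := hF
  have h4 : (ZMod.stdAddChar (ip l0 z - S.ga l0) - (1 : ℂ)) *
      ∑ l ∈ S.La.filter (fun l => (supp l \ I).card ≤ s0),
      ZMod.stdAddChar (- S.ga l) * FS V l al = 0 := by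
    rw [sub_mul, one_mul, ← h3, sub_self]
  rcases mul_eq_zero.1 h4 with h5 | h5
  · exact sub_eq_zero.1 h5
  · exact absurd h5 hne0

end Pool.Agent.H73.LP
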